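import Pool.Agent.R612.ZX.Sys

/-! The count of the solutions in a rational space. -/

set_option autoImplicit false
set_option linter.unusedVariables false

open Finset Module

noncomputable section

namespace Pool.Agent.R612.ZX

open Pool.Agent.W252 Pool.Agent.W669.Gel
open Pool.Agent.TH813.Core (dlog_eq_zero)
open Pool.Agent.TH813.DQ Pool.Agent.TH813.ZtFin Pool.Agent.TH813.Ell
open Pool.Agent.TH813.MixSys
open Pool.Agent.TH813.Rel (DF)
open Pool.Agent.TH813

variable {F : IntermediateField ℚ ℂ} {n : ℕ}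

/-- `z` is a solution of the system, for some algebraic factors `c i` -/
def IsSolution (F : IntermediateField ℚ ℂ) {n : ℕ} (P Q : Fin n → MvPolynomial (Fin n) F)
    (z : Fin n → ℂ) : Prop :=
  ∀ i, MvPolynomial.aeval z (P i) ≠ 0 ∧ MvPolynomial.aeval z (Q i) ≠ 0 ∧
    ∃ c : ℂ, c ≠ 0 ∧ IsAlgebraic F c ∧
      MvPolynomial.aeval z (P i) * (c * Complex.exp (z i)) = MvPolynomial.aeval z (Q i)

/-- the logarithmic derivative of `Q / P` at `z` in the direction `u` -/
def ld (P Q : MvPolynomial (Fin n) F) (z u : Fin n → ℂ) : ℂ :=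
  (∑ j, MvPolynomial.aeval z (MvPolynomial.pderiv j Q) * u j) / MvPolynomial.aeval z Q -
    (∑ j, MvPolynomial.aeval z (MvPolynomial.pderiv j P) * u j) / MvPolynomial.aeval z P

theorem encard_le_of_finset {α : Type*} (s : Set α) (N : ℕ)
    (h : ∀ t : Finset α, (t : Set α) ⊆ s → t.card ≤ N) : s.encard ≤ N := by
  by_contra hc
  push Not at hc
  have h1 : ((N + 1 : ℕ) : ℕ∞) ≤ s.encard := by
    have := Order.add_one_le_of_lt hc
    exact_mod_cast this
  obtain ⟨t, ht, htc⟩ := Set.exists_subset_encard_eq h1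
  have hfin : t.Finite := by
    rw [← Set.encard_lt_top_iff, htc]
    exact ENat.natCast_lt_top _
  have h2 := h hfin.toFinset (by simpa using ht)
  rw [hfin.encard_eq_coe_toFinset_card] at htc
  have h3 : hfin.toFinset.card = N + 1 := by exact_mod_cast htc
  omega

theorem count_U (U : Submodule ℚ (Fin n → ℂ)) (hfd : FiniteDimensional ℚ U)
    (P Q : Fin n → MvPolynomial (Fin n) F) {a b : ℕ}
    (hP : ∀ i, (P i).totalDegree ≤ a) (hQ : ∀ i, (Q i).totalDegree ≤ b)
    (Z : Set (Fin n → ℂ)) (hZ : ∀ z ∈ Z, z ∈ U ∧ IsSolution F P Q z)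
    (hT : ∀ z ∈ Z, ∀ u ∈ U, (∀ i, ∀ D ∈ DF F, D (ld (P i) (Q i) z u) = dlog D (u i)) → u = 0) :
    Z.encard ≤ (((a + b + 1) * finrank ℚ U).choose (finrank ℚ U) : ℕ) := by
  classical
  let e : U ≃ₗ[ℚ] (Fin (finrank ℚ U) → ℚ) := (Module.finBasis ℚ U).equivFun
  let μ : Fin n → (Fin (finrank ℚ U) → ℚ) →ₗ[ℚ] ℂ := fun i =>
    (LinearMap.proj i : (Fin n → ℂ) →ₗ[ℚ] ℂ) ∘ₗ U.subtype ∘ₗ e.symm.toLinearMap
  have hμ : ∀ x, (fun i => μ i x) = (e.symm x : Fin n → ℂ) := fun x => rfl
  apply encard_le_of_finset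
  intro t ht
  let f : {z // z ∈ t} → (Fin (finrank ℚ U) → ℚ) := fun z => e ⟨z.1, (hZ _ (ht z.2)).1⟩
  have hf : Function.Injective f := by
    intro z w h
    have h1 := e.injective h
    exact Subtype.ext (congrArg (fun u : U => (u : Fin n → ℂ)) h1)
  have hfz : ∀ z, (e.symm (f z) : Fin n → ℂ) = z.1 := by
    intro z
    show ((e.symm (e ⟨z.1, (hZ _ (ht z.2)).1⟩) : U) : Fin n → ℂ) = z.1
    rw [LinearEquiv.symm_apply_apply]
  have hcard : (Finset.univ.image f).card = t.card := by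
    rw [Finset.card_image_of_injective _ hf, Finset.card_univ, Fintype.card_coe]
  rw [← hcard]
  have key := count_sys μ P Q hP hQ (Finset.univ.image f) ?_ ?_
  · rwa [Fintype.card_fin] at key
  · intro x hx i
    obtain ⟨z, -, rfl⟩ := Finset.mem_image.1 hx
    have h1 := (hZ _ (ht z.2)).2 i
    have h2 : (fun j => μ j (f z)) = z.1 := (hμ _).trans (hfz z)
    have h3 : μ i (f z) = z.1 i := congrFun h2 i
    obtain ⟨hA, hB, c, hc0, hc, he⟩ := h1
    unfold ev
    rw [h2, h3]
    refine ⟨hA, hB, ?_⟩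
    have h4 : MvPolynomial.aeval z.1 (P i) * Complex.exp (z.1 i) / MvPolynomial.aeval z.1 (Q i) =
        c⁻¹ := by
      rw [← he]
      have := Complex.exp_ne_zero (z.1 i)
      field_simp
    rw [h4]
    exact hc.inv
  · intro y hy x hx
    obtain ⟨z, -, rfl⟩ := Finset.mem_image.1 hy
    have h2 : (fun j => μ j (f z)) = z.1 := (hμ _).trans (hfz z)
    have h5 := hT z.1 (ht z.2) (e.symm x : Fin n → ℂ) (e.symm x).2 ?_
    · have h6 : e.symm x = 0 := Subtype.ext h5
      simpa using h6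
    · intro i D hD
      have h7 := hx i D hD
      unfold dv ev at h7
      rw [h2] at h7
      exact h7

/-- (1) if the exponentials are transcendental -/
theorem count1 (U : Submodule ℚ (Fin n → ℂ)) (hfd : FiniteDimensional ℚ U)
    (P Q : Fin n → MvPolynomial (Fin n) F) {a b : ℕ}
    (hP : ∀ i, (P i).totalDegree ≤ a) (hQ : ∀ i, (Q i).totalDegree ≤ b)
    (hU : ∀ u ∈ U, (∀ i, IsAlgebraic F (Complex.exp (u i))) → u = 0) :
    {z | z ∈ U ∧ IsSolution F P Q z}.encard ≤
      (((a + b + 1) * finrank ℚ U).choose (finrank ℚ U) : ℕ) := by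
  refine count_U U hfd P Q hP hQ _ (fun z hz => hz) ?_
  intro z hz u hu h
  exact hU u hu fun i => null_of_key (h i)

/-- the field generated by the logarithms of algebraic points -/
def logField (F : IntermediateField ℚ ℂ) (U : Submodule ℚ (Fin n → ℂ)) :
    IntermediateField ℚ ℂ :=
  F ⊔ IntermediateField.adjoin ℚ
    {w | ∃ u ∈ U, (∀ i, IsAlgebraic F (Complex.exp (u i))) ∧ ∃ i, w = u i}

/-- `u` is a period of `Q / P` -/
def Period (P Q : MvPolynomial (Fin n) F) (u : Fin n → ℂ) : Prop :=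
  MvPolynomial.map (algebraMap F ℂ) P * dir u (MvPolynomial.map (algebraMap F ℂ) Q) =
    MvPolynomial.map (algebraMap F ℂ) Q * dir u (MvPolynomial.map (algebraMap F ℂ) P)

theorem aeval_map_F (z : Fin n → ℂ) (p : MvPolynomial (Fin n) F) :
    MvPolynomial.eval z (MvPolynomial.map (algebraMap F ℂ) p) = MvPolynomial.aeval z p := by
  rw [MvPolynomial.eval_map, MvPolynomial.aeval_def]

theorem eval_dir (z u : Fin n → ℂ) (p : MvPolynomial (Fin n) F) :
    MvPolynomial.eval z (dir u (MvPolynomial.map (algebraMap F ℂ) p)) =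
      ∑ j, MvPolynomial.aeval z (MvPolynomial.pderiv j p) * u j := by
  unfold dir
  rw [map_sum]
  refine Finset.sum_congr rfl fun j _ => ?_
  rw [map_mul, MvPolynomial.eval_C, MvPolynomial.pderiv_map, aeval_map_F, mul_comm]

/-- a polynomial relation over an algebraic extension of `E` at a generic point is trivial -/
theorem generic_zero {E : IntermediateField ℚ ℂ} {z : Fin n → ℂ} (hz : AlgebraicIndependent E z)
    {p : MvPolynomial (Fin n) ℂ} (hp : ∀ m, IsAlgebraic E (p.coeff m))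
    (h : MvPolynomial.eval z p = 0) : p = 0 := by
  have h1 : AlgebraicIndependent (algebraicClosure E ℂ) z := hz.extendScalars _
  have h2 : p ∈ Set.range (MvPolynomial.map (algebraMap (algebraicClosure E ℂ) ℂ) :
      MvPolynomial (Fin n) (algebraicClosure E ℂ) → MvPolynomial (Fin n) ℂ) := by
    rw [MvPolynomial.mem_range_map_iff_coeffs_subset]
    intro c hc
    rw [Finset.mem_coe, MvPolynomial.mem_coeffs_iff] at hc
    obtain ⟨m, -, rfl⟩ := hc
    exact ⟨⟨p.coeff m, (mem_algebraicClosure_iff).2 (hp m)⟩, rfl⟩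
  obtain ⟨q, rfl⟩ := h2
  rw [MvPolynomial.eval_map] at h
  have h3 : q = 0 := by
    rw [algebraicIndependent_iff] at h1
    exact h1 q h
  rw [h3, map_zero]

/-- (2) the generic solutions, if there are no common periods -/
theorem count2 (U : Submodule ℚ (Fin n → ℂ)) (hfd : FiniteDimensional ℚ U)
    (P Q : Fin n → MvPolynomial (Fin n) F) {a b : ℕ}
    (hP : ∀ i, (P i).totalDegree ≤ a) (hQ : ∀ i, (Q i).totalDegree ≤ b)
    (hU : ∀ u ∈ U, (∀ i, IsAlgebraic F (Complex.exp (u i))) → (∀ i, Period (P i) (Q i) u) →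
      u = 0) :
    {z | z ∈ U ∧ IsSolution F P Q z ∧ AlgebraicIndependent (logField F U) z}.encard ≤
      (((a + b + 1) * finrank ℚ U).choose (finrank ℚ U) : ℕ) := by
  refine count_U U hfd P Q hP hQ _ (fun z hz => ⟨hz.1, hz.2.1⟩) ?_
  rintro z ⟨hz1, hz2, hz3⟩ u hu h
  have hnull : ∀ i, IsAlgebraic F (Complex.exp (u i)) := fun i => null_of_key (h i)
  refine hU u hu hnull fun i => ?_
  set E := logField F U with hE
  have hFE : F ≤ E := le_sup_left
  have huE : ∀ j, u j ∈ E := fun j => (le_sup_right : _ ≤ E)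
    (IntermediateField.subset_adjoin _ _ ⟨u, hu, hnull, j, rfl⟩)
  have hFalg : ∀ x : F, IsAlgebraic E (x : ℂ) := fun x =>
    isAlgebraic_algebraMap (⟨x, hFE x.2⟩ : E)
  have hEalg : ∀ x ∈ E, IsAlgebraic E (x : ℂ) := fun x hx =>
    isAlgebraic_algebraMap (⟨x, hx⟩ : E)
  have hh : IsAlgebraic E (ld (P i) (Q i) z u) := by
    apply alg_of_killed
    intro D hD
    have hDF : D ∈ DF F := fun x hx => hD x (hFE hx)
    rw [h i D hDF]
    exact dlog_eq_zero.2 (killed_of_alg (hnull i) D hDF)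
  obtain ⟨hA, hB, -⟩ := hz2 i
  set A := MvPolynomial.map (algebraMap F ℂ) (P i) with hAd
  set B := MvPolynomial.map (algebraMap F ℂ) (Q i) with hBd
  have heA : MvPolynomial.eval z A ≠ 0 := by
    rw [hAd, aeval_map_F]
    exact hA
  have heB : MvPolynomial.eval z B ≠ 0 := by
    rw [hBd, aeval_map_F]
    exact hB
  -- the coefficients are algebraic
  have hcA : ∀ m, IsAlgebraic E (A.coeff m) := fun m => by
    rw [hAd, MvPolynomial.coeff_map]
    exact hFalg _
  have hcB : ∀ m, IsAlgebraic E (B.coeff m) := fun m => by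
    rw [hBd, MvPolynomial.coeff_map]
    exact hFalg _
  let R : Subalgebra E ℂ := (algebraicClosure E ℂ).toSubalgebra
  have hR : ∀ {x : ℂ}, IsAlgebraic E x ↔ x ∈ R := fun {x} => (mem_algebraicClosure_iff).symm
  have hmul : ∀ {p q : MvPolynomial (Fin n) ℂ}, (∀ m, IsAlgebraic E (p.coeff m)) →
      (∀ m, IsAlgebraic E (q.coeff m)) → ∀ m, IsAlgebraic E ((p * q).coeff m) := by
    intro p q hp hq m
    rw [MvPolynomial.coeff_mul, hR]
    exact Subalgebra.sum_mem _ fun x _ => Subalgebra.mul_mem _ (hR.1 (hp _)) (hR.1 (hq _))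
  have hsub : ∀ {p q : MvPolynomial (Fin n) ℂ}, (∀ m, IsAlgebraic E (p.coeff m)) →
      (∀ m, IsAlgebraic E (q.coeff m)) → ∀ m, IsAlgebraic E ((p - q).coeff m) := by
    intro p q hp hq m
    rw [MvPolynomial.coeff_sub, hR]
    exact Subalgebra.sub_mem _ (hR.1 (hp _)) (hR.1 (hq _))
  have hC : ∀ {c : ℂ}, IsAlgebraic E c → ∀ m, IsAlgebraic E
      ((MvPolynomial.C c : MvPolynomial (Fin n) ℂ).coeff m) := by
    intro c hc m
    rw [MvPolynomial.coeff_C, hR]
    split_ifs
    · exact hR.1 hc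
    · exact Subalgebra.zero_mem _
  have hder : ∀ (p : MvPolynomial (Fin n) F) (j : Fin n) m, IsAlgebraic E
      ((MvPolynomial.pderiv j (MvPolynomial.map (algebraMap F ℂ) p)).coeff m) := by
    intro p j m
    rw [MvPolynomial.pderiv_map, MvPolynomial.coeff_map]
    exact hFalg _
  have hdir : ∀ (p : MvPolynomial (Fin n) F) m, IsAlgebraic E
      ((dir u (MvPolynomial.map (algebraMap F ℂ) p)).coeff m) := by
    intro p m
    unfold dir
    rw [MvPolynomial.coeff_sum, hR]
    exact Subalgebra.sum_mem _ fun j _ => hR.1 (hmul (hC (hEalg _ (huE j))) (hder p j) m)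
  have hrel : MvPolynomial.C (ld (P i) (Q i) z u) * (A * B) - (A * dir u B - B * dir u A) = 0 := by
    apply generic_zero hz3
    · exact hsub (hmul (hC hh) (hmul hcA hcB)) (hsub (hmul hcA (hdir _)) (hmul hcB (hdir _)))
    · rw [map_sub, map_sub, map_mul, map_mul, map_mul, map_mul, MvPolynomial.eval_C, hAd, hBd,
        eval_dir, eval_dir, aeval_map_F, aeval_map_F]
      unfold ld
      field_simp
      ring
  have h0 := no_const u A B (fun h => heA (by rw [h, map_zero])) (fun h => heB (by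
    rw [h, map_zero])) _ (sub_eq_zero.1 hrel)
  rw [h0, map_zero, zero_mul, zero_sub, neg_eq_zero, sub_eq_zero] at hrel
  exact hrel

end Pool.Agent.R612.ZX
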