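import Mathlib
import Pool.Agent.TH813.MixSys

/-!
# Solutions of systems `P_i(z) e^(z_i) = c_i Q_i(z)` in rational spaces

The coordinate equations are those of `Pool.Agent.TH813.MixSys` (starting files); here the
solutions are allowed to have tangent vectors with algebraic exponentials.
-/

set_option autoImplicit false
set_option linter.unusedVariables false

open Finset Module

noncomputable section

namespace Pool.Agent.R612.ZX

open Pool.Agent.W252 Pool.Agent.W669.Gel
open Pool.Agent.TH813.Core (dlog_eq_zero)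
open Pool.Agent.TH813.DQ Pool.Agent.TH813.ZtFin Pool.Agent.TH813.Ell
open Pool.Agent.TH813.MixSys
open Pool.Agent.TH813.Rel (DF)
open Pool.Agent.TH813

variable {F : IntermediateField ℚ ℂ} {ι : Type} [Fintype ι] {n : ℕ}
  (μ : Fin n → (ι → ℚ) →ₗ[ℚ] ℂ)

/-- the equations of one coordinate and their derivatives -/
theorem coord {P Q : MvPolynomial (Fin n) F} {a b : ℕ} (hP : P.totalDegree ≤ a)
    (hQ : Q.totalDegree ≤ b) (i : Fin n) :
    ∃ (e : DF F → (ι → ℚ) → ℂ) (e' : DF F → (ι → ℚ) → (ι → ℚ) → ℂ),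
      (∀ D, IsDQ (a + b + 1) (e D) (e' D)) ∧
      (∀ x, Sol F none (ev μ P x) (ev μ Q x) (μ i x) → ∀ D, e D x = 0) ∧
      ∀ y z, Sol F none (ev μ P y) (ev μ Q y) (μ i y) → (∀ D, e' D y z = 0) →
        ∀ D ∈ DF F, D (dv μ Q y z / ev μ Q y - dv μ P y z / ev μ P y) = dlog D (μ i z) := by
  refine ⟨fun D x => ev μ (P * Q) x * (dl (D : Derivation ℚ ℂ ℂ) ∘ₗ μ i) x - sd μ P Q D x,
    fun D y z => ((dl (D : Derivation ℚ ℂ ℂ) ∘ₗ μ i) y * dv μ (P * Q) y z +
      ev μ (P * Q) y * (dl (D : Derivation ℚ ℂ ℂ) ∘ₗ μ i) z) - sd' μ P Q D y z,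
    fun D => ?_, ?_, ?_⟩
  · exact ((dq_poly μ ((MvPolynomial.totalDegree_mul _ _).trans
      (add_le_add hP hQ))).mul (IsDQ.lin (dl (D : Derivation ℚ ℂ ℂ) ∘ₗ μ i))).sub
      (sd_dq μ hP hQ D)
  · rintro x ⟨hA, hB, h⟩ ⟨D, hD⟩
    have he := Complex.exp_ne_zero (μ i x)
    have h0 := killed_of_alg h D hD
    have h1 : D (Complex.exp (μ i x)) = Complex.exp (μ i x) * dlog D (μ i x) := by
      unfold dlog
      field_simp
    rw [Derivation.leibniz_div, Derivation.leibniz, h1] at h0
    simp only [smul_eq_mul] at h0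
    change ev μ (P * Q) x * dlog D (μ i x) - sd μ P Q D x = 0
    rw [sd_eq μ hD, ev_mul]
    set A := ev μ P x
    set B := ev μ Q x
    set E := Complex.exp (μ i x)
    have h5 : E * (A * B * dlog D (μ i x) - (A * D B - B * D A)) = 0 := by
      have h6 : B⁻¹ ^ 2 * (B * (A * (E * dlog D (μ i x)) + E * D A) - A * E * D B) = 0 := h0
      have h7 := (mul_eq_zero.1 h6).resolve_left (pow_ne_zero 2 (inv_ne_zero hB))
      linear_combination h7
    exact (mul_eq_zero.1 h5).resolve_left he
  · rintro y z ⟨hA, hB, h⟩ hz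
    have he := Complex.exp_ne_zero (μ i y)
    set A := ev μ P y with hAn
    set B := ev μ Q y with hBn
    intro D hD
    have h1 := hz ⟨D, hD⟩
    change (dlog D (μ i y) * dv μ (P * Q) y z + ev μ (P * Q) y * dlog D (μ i z)) -
      sd' μ P Q D y z = 0 at h1
    rw [sd'_eq μ hD, dv_mul, ev_mul, ← hAn, ← hBn] at h1
    have h0 := killed_of_alg h D hD
    have h2 : D (Complex.exp (μ i y)) = Complex.exp (μ i y) * dlog D (μ i y) := by
      unfold dlog
      field_simp
    rw [Derivation.leibniz_div, Derivation.leibniz, h2] at h0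
    simp only [smul_eq_mul] at h0
    have h3 : A * B * dlog D (μ i y) = A * D B - B * D A := by
      have h6 : B⁻¹ ^ 2 * (B * (A * (Complex.exp (μ i y) * dlog D (μ i y)) +
        Complex.exp (μ i y) * D A) - A * Complex.exp (μ i y) * D B) = 0 := h0
      have h7 := (mul_eq_zero.1 h6).resolve_left (pow_ne_zero 2 (inv_ne_zero hB))
      have h5 : Complex.exp (μ i y) * (A * B * dlog D (μ i y) - (A * D B - B * D A)) = 0 := by
        linear_combination h7
      exact sub_eq_zero.1 ((mul_eq_zero.1 h5).resolve_left he)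
    have h4 : dlog D (μ i y) = (A * D B - B * D A) / (A * B) := by
      rw [← h3]
      field_simp
    rw [h4] at h1
    rw [map_sub, Derivation.leibniz_div, Derivation.leibniz_div]
    simp only [smul_eq_mul]
    set Pz := dv μ P y z
    set Qz := dv μ Q y z
    have h8 : dlog D (μ i z) = (A * B)⁻¹ * ((D B * Pz - D A * Qz + A * D Qz - B * D Pz) -
        (A * D B - B * D A) / (A * B) * (B * Pz + A * Qz)) := by
      have h9 : A * B * dlog D (μ i z) = (D B * Pz - D A * Qz + A * D Qz - B * D Pz) -
        (A * D B - B * D A) / (A * B) * (B * Pz + A * Qz) := by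
        linear_combination h1
      rw [← h9]
      field_simp
    rw [h8]
    field_simp
    ring

/-- the count, if there are no tangent vectors -/
theorem count_sys (P Q : Fin n → MvPolynomial (Fin n) F) {a b : ℕ}
    (hP : ∀ i, (P i).totalDegree ≤ a) (hQ : ∀ i, (Q i).totalDegree ≤ b) (S : Finset (ι → ℚ))
    (hS : ∀ x ∈ S, ∀ i, Sol F none (ev μ (P i) x) (ev μ (Q i) x) (μ i x))
    (hT : ∀ y ∈ S, ∀ z, (∀ i, ∀ D ∈ DF F, D (dv μ (Q i) y z / ev μ (Q i) y -
      dv μ (P i) y z / ev μ (P i) y) = dlog D (μ i z)) → z = 0) :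
    S.card ≤ ((a + b + 1) * Fintype.card ι).choose (Fintype.card ι) := by
  classical
  have hc := fun i => coord μ (hP i) (hQ i) i
  choose e e' h1 h2 h3 using hc
  have hdq' := fun p : DF F × Fin n => (h1 p.2 p.1).2
  choose H k1 k2 k3 k4 using hdq'
  have key := CountF.count (K := ℚ) (A := ℂ) (ι := ι) (d := a + b) H
    (fun p y z => k1 p y z) S (fun p y hy x hx => by
      rw [← k3, h2 p.2 x (hS x hx p.2) p.1, h2 p.2 y (hS y hy p.2) p.1, sub_zero])
    (fun y hy z hz => hT y hy z (fun i => h3 i y z (hS y hy i) (fun D => by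
      rw [← k4 (D, i)]
      exact hz (D, i))))
  have e : Fintype.card ι + Fintype.card ι * (a + b) = (a + b + 1) * Fintype.card ι := by ring
  rwa [e] at key

omit [Fintype ι] in
/-- the exponentials of the coordinates of a tangent vector are algebraic -/
theorem null_of_key {h τ : ℂ} (hk : ∀ D ∈ DF F, D h = dlog D τ) :
    IsAlgebraic F (Complex.exp τ) := by
  have h1 := Pool.Agent.TH813.Ros.exact F (n := 1) (fun _ => 1)
    (fun _ => Complex.exp τ) (fun _ => one_mem _) (fun _ => Complex.exp_ne_zero _) h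
    (fun D hD => by
      rw [hk D hD]
      unfold dlog
      simp)
  refine alg_of_killed (fun D hD => dlog_eq_zero.1 ?_)
  rw [← hk D hD]
  exact h1 D hD

/-- the derivative in the direction `u` -/
def dir {R : Type*} [CommRing R] (u : Fin n → R) (p : MvPolynomial (Fin n) R) :
    MvPolynomial (Fin n) R := ∑ j, MvPolynomial.C (u j) * MvPolynomial.pderiv j p

theorem pderiv_lt {R : Type*} [CommRing R] (j : Fin n) (P : MvPolynomial (Fin n) R) :
    (MvPolynomial.pderiv j P).totalDegree ≤ P.totalDegree - 1 := by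
  classical
  have h1 : MvPolynomial.pderiv j P = ∑ s ∈ P.support,
      MvPolynomial.pderiv j (MvPolynomial.monomial s (P.coeff s)) := by
    rw [← map_sum, ← MvPolynomial.as_sum]
  rw [h1]
  refine MvPolynomial.totalDegree_finsetSum_le (fun s hs => ?_)
  rw [MvPolynomial.pderiv_monomial]
  by_cases h0 : s j = 0
  · rw [h0]
    simp
  refine (MvPolynomial.totalDegree_monomial_le _ _).trans ?_
  have h2 := MvPolynomial.le_totalDegree hs
  rw [Finsupp.sum_fintype _ _ (fun _ => rfl)] at h2 ⊢
  set t : Fin n →₀ ℕ := s - Finsupp.single j 1 with ht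
  have h3 : ∑ i, t i + 1 ≤ ∑ i, s i := by
    rw [← Finset.add_sum_erase _ _ (Finset.mem_univ j),
      ← Finset.add_sum_erase (f := fun i => s i) _ (Finset.mem_univ j)]
    have h4 : t j + 1 = s j := by
      rw [ht, Finsupp.tsub_apply, Finsupp.single_eq_same]
      omega
    have h5 : ∑ i ∈ univ.erase j, t i ≤ ∑ i ∈ univ.erase j, s i :=
      Finset.sum_le_sum fun i _ => (tsub_le_self : s - Finsupp.single j 1 ≤ s) i
    omega
  have h6 : ∑ i, id (t i) = ∑ i, t i := rfl
  omega

theorem dir_deg {R : Type*} [CommRing R] (u : Fin n → R) (P : MvPolynomial (Fin n) R) :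
    (dir u P).totalDegree ≤ P.totalDegree - 1 := by
  refine MvPolynomial.totalDegree_finsetSum_le (fun j _ => ?_)
  refine (MvPolynomial.totalDegree_mul _ _).trans ?_
  rw [MvPolynomial.totalDegree_C, zero_add]
  exact pderiv_lt j P

theorem dir_const {R : Type*} [CommRing R] (u : Fin n → R) (P : MvPolynomial (Fin n) R)
    (h : P.totalDegree = 0) : dir u P = 0 := by
  rw [MvPolynomial.totalDegree_eq_zero_iff_eq_C] at h
  rw [h]
  unfold dir
  simp

/-- the logarithmic derivative of a rational function in a direction is not a nonzero constant -/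
theorem no_const {R : Type*} [CommRing R] [IsDomain R] (u : Fin n → R)
    (P Q : MvPolynomial (Fin n) R) (hP : P ≠ 0) (hQ : Q ≠ 0) (h : R)
    (he : MvPolynomial.C h * (P * Q) = P * dir u Q - Q * dir u P) : h = 0 := by
  by_contra hne
  have h1 : (MvPolynomial.C h * (P * Q)).totalDegree = P.totalDegree + Q.totalDegree := by
    have hC : (MvPolynomial.C h : MvPolynomial (Fin n) R) ≠ 0 := by
      simpa using hne
    rw [MvPolynomial.totalDegree_mul_of_isDomain hC (mul_ne_zero hP hQ),
      MvPolynomial.totalDegree_mul_of_isDomain hP hQ, MvPolynomial.totalDegree_C, zero_add]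
  have h2 : MvPolynomial.C h * (P * Q) ≠ 0 :=
    mul_ne_zero (by simpa using hne) (mul_ne_zero hP hQ)
  have k1 : (P * dir u Q).totalDegree ≤ P.totalDegree + (Q.totalDegree - 1) :=
    (MvPolynomial.totalDegree_mul _ _).trans (Nat.add_le_add_left (dir_deg u Q) _)
  have k2 : (Q * dir u P).totalDegree ≤ Q.totalDegree + (P.totalDegree - 1) :=
    (MvPolynomial.totalDegree_mul _ _).trans (Nat.add_le_add_left (dir_deg u P) _)
  have k3 := MvPolynomial.totalDegree_sub (P * dir u Q) (Q * dir u P)
  rw [← he, h1] at k3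
  by_cases hp : P.totalDegree = 0
  · by_cases hq : Q.totalDegree = 0
    · rw [dir_const u P hp, dir_const u Q hq] at he
      rw [he] at h2
      simp at h2
    · rw [dir_const u P hp, mul_zero, MvPolynomial.totalDegree_zero] at k3
      rw [max_eq_left (Nat.zero_le _)] at k3
      omega
  · by_cases hq : Q.totalDegree = 0
    · rw [dir_const u Q hq, mul_zero, MvPolynomial.totalDegree_zero] at k3
      rw [max_eq_right (Nat.zero_le _)] at k3
      omega
    · have := max_le k1 (k2.trans (by omega : _ ≤ P.totalDegree + (Q.totalDegree - 1)))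
      omega

end Pool.Agent.R612.ZX
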